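import Pool.Agent.K4H10.PR.Spec

namespace Pool.Agent.K4H10.PR
open scoped BigOperators Classical Pointwise

/-- [FIX] -/
theorem fix : StFix := by
  intro p hp G _ _ M P hPM hP hidx ψ hψ k g hg
  haveI : Fact p.Prime := ⟨hp⟩
  let φ : P →* M :=
    { toFun := fun x => ⟨g⁻¹ * x * g, hg x x.2⟩
      map_one' := by
        apply Subtype.ext
        simp
      map_mul' := by
        intro x y
        apply Subtype.ext
        simp [mul_assoc] }
  have hφ : Function.Injective φ := by
    intro x y h
    have h1 : g⁻¹ * (x : G) * g = g⁻¹ * (y : G) * g := congrArg Subtype.val h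
    apply Subtype.ext
    exact mul_left_cancel (mul_right_cancel h1)
  have hA : IsPGroup p (P.subgroupOf M) := hP.comap_subtype
  have hB : IsPGroup p φ.range := hP.of_surjective φ.rangeRestrict φ.rangeRestrict_surjective
  have hcA : Nat.card (P.subgroupOf M) = Nat.card P :=
    Nat.card_congr (Subgroup.subgroupOfEquivOfLe hPM).toEquiv
  have hcB : Nat.card φ.range = Nat.card P :=
    (Nat.card_congr (MonoidHom.ofInjective hφ).toEquiv).symm
  have hiB : φ.range.index = (P.subgroupOf M).index := by
    have h1 := φ.range.card_mul_index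
    have h2 := (P.subgroupOf M).card_mul_index
    rw [hcB] at h1
    rw [hcA] at h2
    exact Nat.eq_of_mul_eq_mul_left Nat.card_pos (h1.trans h2.symm)
  obtain ⟨m, hm⟩ := MulAction.exists_smul_eq M (hB.toSylow (by rw [hiB]; exact hidx))
    (hA.toSylow hidx)
  have hm2 : ∀ x : P, m * φ x * m⁻¹ ∈ P.subgroupOf M := by
    intro x
    have h1 : m * φ x * m⁻¹ ∈ (m • (hB.toSylow (by rw [hiB]; exact hidx) : Sylow p M) : Sylow p M) := by
      have h2 : φ x ∈ (hB.toSylow (by rw [hiB]; exact hidx) : Sylow p M) := ⟨x, rfl⟩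
      have h3 := Subgroup.smul_mem_pointwise_smul (φ x) (MulAut.conj m)
        ((hB.toSylow (by rw [hiB]; exact hidx) : Sylow p M) : Subgroup M) h2
      have h4 : m * φ x * m⁻¹ ∈ MulAut.conj m • φ.range := by
        simpa [MulAut.smul_def, MulAut.conj_apply] using h3
      exact h4
    rw [hm] at h1
    exact h1
  let θ0 : P →* P :=
    { toFun := fun x => ⟨((m * φ x * m⁻¹ : M) : G), hm2 x⟩
      map_one' := by
        apply Subtype.ext
        simp
      map_mul' := by
        intro x y
        apply Subtype.ext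
        simp [mul_assoc] }
  have hθ : Function.Injective θ0 := by
    intro x y h
    have h1 : ((m * φ x * m⁻¹ : M) : G) = ((m * φ y * m⁻¹ : M) : G) :=
      congrArg (Subtype.val : P → G) h
    have h2 : m * φ x * m⁻¹ = m * φ y * m⁻¹ := Subtype.ext h1
    exact hφ (mul_left_cancel (mul_right_cancel h2))
  let θ : P ≃* P := MulEquiv.ofBijective θ0 (Finite.injective_iff_bijective.1 hθ)
  have hval : ∀ x : P, ψ ⟨g⁻¹ * x * g, hg x x.2⟩ = ψ ⟨θ x, hPM (θ x).2⟩ := by
    intro x
    have h1 := hψ (φ x) m
    have h2 : (⟨((θ x : P) : G), hPM (θ x).2⟩ : M) = m * φ x * m⁻¹ := Subtype.ext rfl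
    rw [h2, h1]
    rfl
  let e : (P →* ℂˣ) ≃ (P →* ℂˣ) :=
    { toFun := fun lam => lam.comp θ.symm.toMonoidHom
      invFun := fun lam => lam.comp θ.toMonoidHom
      left_inv := by
        intro lam
        refine MonoidHom.ext fun x => ?_
        simp
      right_inv := by
        intro lam
        refine MonoidHom.ext fun x => ?_
        simp }
  refine Fintype.sum_equiv e _ _ fun lam => ?_
  have hk : lam ^ k ≠ 1 ↔ (e lam) ^ k ≠ 1 := by
    rw [not_iff_not]
    constructor
    · intro h
      refine MonoidHom.ext fun x => ?_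
      have := DFunLike.congr_fun h (θ.symm x)
      simpa [e] using this
    · intro h
      refine MonoidHom.ext fun x => ?_
      have := DFunLike.congr_fun h (θ x)
      simpa [e] using this
  by_cases h : lam ^ k ≠ 1
  · rw [if_pos h, if_pos (hk.1 h)]
    refine Fintype.sum_equiv θ.toEquiv _ _ fun x => ?_
    rw [hval x]
    have : (e lam) (θ x) = lam x := by simp [e]
    change _ = ψ ⟨θ x, hPM (θ x).2⟩ * (((e lam) (θ x))⁻¹ : ℂˣ)
    rw [this]
  · rw [if_neg h, if_neg (fun h' => h (hk.2 h'))]

end Pool.Agent.K4H10.PR
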